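import Pool.Agent.V11297.Auto5

/-!
# Strict inequality `π_σ(p^m) < p π_σ(p^(m-1))`, `m ≥ 2`, forces `p = 2`

With `rule σ a b` the class of `a + b x` in `S[x]/(x^σ - 1)`, `period σ n a b` the least `k ≥ 1`
with `(a+bx)^(k+ℓ) = (a+bx)^ℓ` for some `ℓ ≥ 0` and `maxPeriod σ n` the maximum over
`a, b ∈ ℤ/n` (all defined in `Pool.Agent.V11297.Auto2`), we have
`maxPeriod σ (p^m) = p * maxPeriod σ (p^(m-1))` for every odd prime `p`, `σ ≥ 1`, `m ≥ 2`.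
-/

namespace Pool.Agent.Results.MP_25c86d_nt.OddPrimes

open Pool.Agent.V11297.Auto

/-- For every prime `p` admitting `σ ≥ 1` and `m ≥ 2` with `π_σ(p^m) < p π_σ(p^(m-1))` we have
`p = 2`; and for every odd prime `p`, all `σ ≥ 1` and `m ≥ 2` there is equality
`π_σ(p^m) = p π_σ(p^(m-1))`. -/
theorem result :
    (∀ p : ℕ, p.Prime →
      (∃ σ m : ℕ, 1 ≤ σ ∧ 2 ≤ m ∧ maxPeriod σ (p ^ m) < p * maxPeriod σ (p ^ (m - 1))) → p = 2) ∧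
    (∀ p : ℕ, p.Prime → p ≠ 2 → ∀ σ m : ℕ, 1 ≤ σ → 2 ≤ m →
      maxPeriod σ (p ^ m) = p * maxPeriod σ (p ^ (m - 1))) := by
  refine ⟨?_, fun p hp hp2 σ m hσ hm => main hσ hp hp2 hm⟩
  rintro p hp ⟨σ, m, hσ, hm, hlt⟩
  by_contra hp2
  have := main hσ hp hp2 hm
  omega

end Pool.Agent.Results.MP_25c86d_nt.OddPrimes
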